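import Mathlib

/-! # Levin's solution of positive equations, with the order of the solution -/

namespace Pool.Agent.Work.MP_d45015_al

open Function

universe u

section Levin

variable {G : Type u} [Group G] {N : ℕ} (b : ZMod N → G)

/-- the map `(c, h) ↦ (c + 1, (b c)⁻¹ h)` -/
def levY : Equiv.Perm (ZMod N × G) where
  toFun p := (p.1 + 1, (b p.1)⁻¹ * p.2)
  invFun p := (p.1 - 1, b (p.1 - 1) * p.2)
  left_inv p := by
    ext
    · simp
    · simp
  right_inv p := by
    ext
    · simp
    · simp

/-- the diagonal embedding -/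
def levG (G : Type u) [Group G] (N : ℕ) : G →* Equiv.Perm (ZMod N × G) where
  toFun g :=
    { toFun := fun p => (p.1, g * p.2)
      invFun := fun p => (p.1, g⁻¹ * p.2)
      left_inv := fun p => by simp
      right_inv := fun p => by simp }
  map_one' := by
    ext p <;> simp
  map_mul' g h := by
    ext p <;> simp [mul_assoc]

theorem levG_apply (g : G) (p : ZMod N × G) : levG G N g p = (p.1, g * p.2) := rfl

theorem levY_apply (p : ZMod N × G) : levY b p = (p.1 + 1, (b p.1)⁻¹ * p.2) := rfl

theorem levG_injective : Injective (levG G N) := by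
  intro g h hgh
  have := congrArg (fun f : Equiv.Perm (ZMod N × G) => (f (0, 1)).2) hgh
  simpa [levG_apply] using this

/-- the second coordinate of the word -/
def levV : ZMod N → List G → G
  | _, [] => 1
  | c, x :: l => (b (c + (l.length : ZMod N)))⁻¹ * x * levV c l

theorem lev_word (c : ZMod N) (h : G) (l : List G) :
    ((l.map fun x => levY b * levG G N x).prod) (c, h) =
      (c + (l.length : ZMod N), levV b c l * h) := by
  induction l with
  | nil => simp [levV]
  | cons x l ih =>
    rw [List.map_cons, List.prod_cons, Equiv.Perm.mul_apply, ih, Equiv.Perm.mul_apply,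
      levG_apply, levY_apply]
    ext
    · simp only [List.length_cons, Nat.cast_add, Nat.cast_one]
      ring
    · simp only [levV, mul_assoc]

theorem levV_append (c : ZMod N) (l1 l2 : List G) :
    levV b c (l1 ++ l2) = levV b (c + (l2.length : ZMod N)) l1 * levV b c l2 := by
  induction l1 with
  | nil => simp [levV]
  | cons x l ih =>
    rw [List.cons_append, levV, levV, ih, List.length_append, Nat.cast_add]
    have : c + ((l.length : ZMod N) + (l2.length : ZMod N)) =
        c + (l2.length : ZMod N) + (l.length : ZMod N) := by ring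
    rw [this]
    simp only [mul_assoc]

/-- the list `b s, b (s+1), ..` -/
def levSeg : ZMod N → ℕ → List G
  | _, 0 => []
  | s, m + 1 => b s :: levSeg (s + 1) m

omit [Group G] in
theorem levSeg_length (s : ZMod N) (m : ℕ) : (levSeg b s m).length = m := by
  induction m generalizing s with
  | zero => rfl
  | succ m ih => rw [levSeg, List.length_cons, ih]

omit [Group G] in
theorem levSeg_append (s : ZMod N) (m m' : ℕ) :
    levSeg b s (m + m') = levSeg b s m ++ levSeg b (s + (m : ZMod N)) m' := by
  induction m generalizing s with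
  | zero => simp [levSeg]
  | succ m ih =>
    have : m + 1 + m' = (m + m') + 1 := by ring
    rw [this, levSeg, levSeg, ih, List.cons_append]
    have : s + 1 + (m : ZMod N) = s + ((m + 1 : ℕ) : ZMod N) := by
      push_cast
      ring
    rw [this]

theorem levV_seg (s : ZMod N) (m : ℕ) : levV b s (levSeg b s m) = 1 := by
  induction m using Nat.strong_induction_on generalizing s with
  | _ m ih =>
    rcases m with _ | _ | m
    · rfl
    · simp [levSeg, levV]
    · have h1 : levSeg b s (m + 1 + 1) =
          b s :: (levSeg b (s + 1) m ++ [b (s + 1 + (m : ZMod N))]) := by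
        rw [levSeg, levSeg_append]
        simp [levSeg]
      rw [h1, levV, levV_append]
      have h2 := ih m (by omega) (s + 1)
      have h3 : s + (([b (s + 1 + (m : ZMod N))] : List G).length : ZMod N) = s + 1 := by simp
      rw [h3, h2]
      have h4 : s + ((levSeg b (s + 1) m ++ [b (s + 1 + (m : ZMod N))]).length : ZMod N) =
          s + 1 + (m : ZMod N) := by
        rw [List.length_append, levSeg_length]
        push_cast
        simp
        ring
      rw [h4]
      simp [levV]

theorem levV_full [NeZero N] (c : ZMod N) : levV b c (levSeg b 1 N) = 1 := by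
  obtain ⟨i, hi, hc⟩ : ∃ i : ℕ, i < N ∧ c = 1 + (i : ZMod N) := by
    refine ⟨(c - 1).val, ZMod.val_lt _, ?_⟩
    rw [ZMod.natCast_zmod_val]
    ring
  have h1 : levSeg b 1 N = levSeg b 1 i ++ levSeg b c (N - i) := by
    rw [hc, ← levSeg_append]
    congr 1
    omega
  rw [h1, levV_append, levSeg_length, levV_seg, mul_one]
  have h2 : c + ((N - i : ℕ) : ZMod N) = 1 := by
    rw [hc, Nat.cast_sub hi.le]
    simp
  rw [h2, levV_seg]

theorem lev_pow (c : ZMod N) (h : G) (m : ℕ) :
    (levY b ^ m) (c, h) = (c + (m : ZMod N), ((levSeg b c m).prod)⁻¹ * h) := by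
  induction m generalizing c h with
  | zero => simp [levSeg]
  | succ m ih =>
    rw [pow_succ, Equiv.Perm.mul_apply, levY_apply, ih, levSeg, List.prod_cons]
    ext
    · push_cast
      ring
    · simp [mul_assoc]

omit [Group G] in
theorem levSeg_getElem (s : ZMod N) (m i : ℕ) (hi : i < (levSeg b s m).length) :
    (levSeg b s m)[i] = b (s + (i : ZMod N)) := by
  induction m generalizing s i with
  | zero => simp [levSeg] at hi
  | succ m ih =>
    cases i with
    | zero => simp [levSeg]
    | succ i =>
      simp only [levSeg, List.getElem_cons_succ]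
      rw [ih]
      congr 1
      push_cast
      ring

end Levin

/-- **Levin's theorem** for `y b₁ y b₂ .. y b_N`; the solution has infinite order if
`b₁ b₂ .. b_N` has infinite order. -/
theorem levin {G : Type u} [Group G] (L : List G) (hL : L ≠ []) :
    ∃ (H : Type u) (_ : Group H) (ι : G →* H) (y : H), Injective ι ∧
      (L.map fun x => y * ι x).prod = 1 ∧ (¬ IsOfFinOrder L.prod → ¬ IsOfFinOrder y) := by
  obtain ⟨N, hN⟩ : ∃ N, N = L.length := ⟨_, rfl⟩
  have hN0 : N ≠ 0 := by
    rw [hN]
    exact fun h => hL (List.eq_nil_of_length_eq_zero h)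
  have : NeZero N := ⟨hN0⟩
  let b : ZMod N → G := fun j => L[(j - 1).val]'(by rw [← hN]; exact ZMod.val_lt _)
  have hseg : levSeg b 1 N = L := by
    apply List.ext_getElem
    · rw [levSeg_length, hN]
    · intro i h1 h2
      rw [levSeg_getElem]
      have h3 : ((1 : ZMod N) + (i : ZMod N) - 1).val = i := by
        rw [add_sub_cancel_left]
        exact ZMod.val_natCast_of_lt (by rw [hN]; exact h2)
      simp only [b, h3]
  refine ⟨Equiv.Perm (ZMod N × G), inferInstance, levG G N, levY b, levG_injective, ?_, ?_⟩
  · ext1 p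
    obtain ⟨c, h⟩ := p
    rw [lev_word]
    have h1 := levV_full b c
    rw [hseg] at h1
    rw [h1, ← hN]
    simp
  · intro hfin hy
    apply hfin
    rw [isOfFinOrder_iff_pow_eq_one] at hy ⊢
    obtain ⟨t, ht, hyt⟩ := hy
    refine ⟨t, ht, ?_⟩
    have h1 : ∀ (j : ℕ) (h : G), ((levY b ^ N) ^ j) (1, h) = (1, (L.prod⁻¹) ^ j * h) := by
      intro j
      induction j with
      | zero => intro h; simp
      | succ j ih =>
        intro h
        rw [pow_succ, Equiv.Perm.mul_apply, lev_pow, hseg]
        have : (1 : ZMod N) + (N : ZMod N) = 1 := by simp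
        rw [this, ih, pow_succ, mul_assoc]
    have h2 : (levY b ^ N) ^ t = 1 := by
      rw [← pow_mul, mul_comm, pow_mul, hyt, one_pow]
    have h3 := h1 t 1
    rw [h2] at h3
    have h4 := congrArg Prod.snd h3
    simp only [Equiv.Perm.coe_one, id_eq, mul_one, inv_pow] at h4
    exact inv_eq_one.1 h4.symm

/-- Levin's theorem for `y^n₁ a₁ y^n₂ a₂ ..`, `nᵢ > 0` -/
theorem levin_pow {G : Type u} [Group G] (L : List (ℕ × G)) (hL : L ≠ [])
    (hpos : ∀ p ∈ L, 0 < p.1) :
    ∃ (H : Type u) (_ : Group H) (ι : G →* H) (y : H), Injective ι ∧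
      (L.map fun p => y ^ p.1 * ι p.2).prod = 1 ∧
      (¬ IsOfFinOrder (L.map Prod.snd).prod → ¬ IsOfFinOrder y) := by
  have hne : (L.flatMap fun p => List.replicate (p.1 - 1) (1 : G) ++ [p.2]) ≠ [] := by
    obtain ⟨p, L', rfl⟩ := List.exists_cons_of_ne_nil hL
    simp
  obtain ⟨H, _, ι, y, h1, h2, h3⟩ :=
    levin (L.flatMap fun p => List.replicate (p.1 - 1) (1 : G) ++ [p.2]) hne
  have e1 : ∀ L : List (ℕ × G),
      (L.flatMap fun p => List.replicate (p.1 - 1) (1 : G) ++ [p.2]).prod =
        (L.map Prod.snd).prod := by
    intro L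
    induction L with
    | nil => rfl
    | cons p L ih => simp [ih]
  have e2 : ∀ L : List (ℕ × G), (∀ p ∈ L, 0 < p.1) →
      ((L.flatMap fun p => List.replicate (p.1 - 1) (1 : G) ++ [p.2]).map
        fun x => y * ι x).prod = (L.map fun p => y ^ p.1 * ι p.2).prod := by
    intro L
    induction L with
    | nil => intro _; rfl
    | cons p L ih =>
      intro hp
      have hp1 : 0 < p.1 := hp p (by simp)
      rw [List.flatMap_cons, List.map_append, List.prod_append,
        ih (fun q hq => hp q (by simp [hq])), List.map_cons, List.prod_cons]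
      congr 1
      rw [List.map_append, List.prod_append, List.map_replicate, List.prod_replicate]
      simp only [map_one, mul_one, List.map_cons, List.map_nil, List.prod_cons, List.prod_nil]
      rw [← mul_assoc, ← pow_succ, Nat.sub_add_cancel hp1]
  refine ⟨H, inferInstance, ι, y, h1, ?_, ?_⟩
  · rw [← e2 L hpos]
    exact h2
  · rw [← e1 L]
    exact h3

end Pool.Agent.Work.MP_d45015_al
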