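import Pool.Agent.Work.MP_d45015_al.Levin

/-! # singular equations with commuting coefficients -/

namespace Pool.Agent.Work.MP_d45015_al

open Function

universe u

/-- normal form `g₀ (y b₁) (y b₂) ..` of `y^n₁ a₁ y^n₂ a₂ ..` -/
def nrm {G : Type u} [Group G] : List (ℕ × G) → G × List G
  | [] => (1, [])
  | (0, a) :: l => (a * (nrm l).1, (nrm l).2)
  | (n + 1, a) :: l => (1, List.replicate n 1 ++ (a * (nrm l).1) :: (nrm l).2)

theorem nrm_prod {G : Type u} [Group G] (l : List (ℕ × G)) :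
    (nrm l).1 * (nrm l).2.prod = (l.map Prod.snd).prod := by
  induction l with
  | nil => simp [nrm]
  | cons p l ih =>
    obtain ⟨n, a⟩ := p
    cases n with
    | zero => simp [nrm, ← ih, mul_assoc]
    | succ n => simp [nrm, ← ih, mul_assoc]

theorem nrm_word {G : Type u} [Group G] {H : Type u} [Group H] (ι : G →* H) (y : H)
    (l : List (ℕ × G)) :
    ι (nrm l).1 * ((nrm l).2.map fun x => y * ι x).prod =
      (l.map fun p => y ^ p.1 * ι p.2).prod := by
  induction l with
  | nil => simp [nrm]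
  | cons p l ih =>
    obtain ⟨n, a⟩ := p
    cases n with
    | zero => simp [nrm, ← ih, mul_assoc]
    | succ n => simp [nrm, ← ih, mul_assoc, pow_succ]

theorem nrm_ne {G : Type u} [Group G] (l : List (ℕ × G)) (h : ∃ p ∈ l, 0 < p.1) :
    (nrm l).2 ≠ [] := by
  induction l with
  | nil => simp at h
  | cons p l ih =>
    obtain ⟨n, a⟩ := p
    cases n with
    | zero =>
      have h' : ∃ p ∈ l, 0 < p.1 := by
        obtain ⟨q, hq, hq0⟩ := h
        rcases List.mem_cons.1 hq with rfl | hq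
        · simp at hq0
        · exact ⟨q, hq, hq0⟩
      simpa [nrm] using ih h'
    | succ n => simp [nrm]

/-- Levin's theorem for `y^n₁ a₁ y^n₂ a₂ ..`, `nᵢ ≥ 0`, not all `0` -/
theorem levin_nonneg {G : Type u} [Group G] (l : List (ℕ × G)) (h : ∃ p ∈ l, 0 < p.1)
    (hord : ¬ IsOfFinOrder (l.map Prod.snd).prod) :
    ∃ (H : Type u) (_ : Group H) (ι : G →* H) (y : H), Injective ι ∧
      (l.map fun p => y ^ p.1 * ι p.2).prod = 1 ∧ ¬ IsOfFinOrder y := by
  obtain ⟨L0, bN, hL⟩ : ∃ L0 bN, (nrm l).2 = L0 ++ [bN] := by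
    rcases List.eq_nil_or_concat (nrm l).2 with h1 | ⟨L0, bN, h1⟩
    · exact absurd h1 (nrm_ne l h)
    · exact ⟨L0, bN, by rw [h1, List.concat_eq_append]⟩
  obtain ⟨H, _, ι, y, h1, h2, h3⟩ := levin (L0 ++ [bN * (nrm l).1]) (by simp)
  refine ⟨H, inferInstance, ι, y, h1, ?_, ?_⟩
  · rw [← nrm_word, hL]
    have h4 : ((L0 ++ [bN]).map fun x => y * ι x).prod * ι (nrm l).1 = 1 := by
      rw [← h2]
      simp [mul_assoc]
    rw [mul_eq_one_iff_eq_inv'] at h4
    rw [h4]
    simp
  · apply h3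
    have h4 : (L0 ++ [bN * (nrm l).1]).prod = (nrm l).2.prod * (nrm l).1 := by
      rw [hL]
      simp [mul_assoc]
    rw [h4]
    intro h5
    apply hord
    rw [← nrm_prod]
    have h6 : (nrm l).1 * (nrm l).2.prod =
        MulAut.conj (nrm l).1 ((nrm l).2.prod * (nrm l).1) := by
      simp [mul_assoc]
    rw [h6]
    exact (MulAut.conj (nrm l).1).toMonoidHom.isOfFinOrder h5

/-- the value of the positive word `x b₁ x b₂ .. x b_m` -/
def evalPos {G H : Type u} [Group G] [Group H] (ι : G →* H) (x : H) (v : List G) : H :=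
  (v.map fun b => x * ι b).prod

/-- the main theorem -/
theorem main {G : Type u} [Group G] (ca : List (G × G)) (v : List G) (hv : v ≠ [])
    (A : Subgroup G) (hc : ∀ p ∈ ca, p.1 ∈ A)
    (hcen : ∀ a ∈ A, a * (ca.map Prod.fst).prod = (ca.map Prod.fst).prod * a)
    (χ : A →* Multiplicative ℤ)
    (hpos : ∀ (p : G × G) (hp : p ∈ ca), 0 ≤ (χ ⟨p.1, hc p hp⟩).toAdd)
    (hpos' : ∃ (p : G × G) (hp : p ∈ ca), 0 < (χ ⟨p.1, hc p hp⟩).toAdd)
    (ha : ¬ IsOfFinOrder (ca.map Prod.snd).prod) :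
    ∃ (H : Type u) (_ : Group H) (ι : G →* H) (x : H), Injective ι ∧
      (ca.map fun p => evalPos ι x v * ι p.1 * (evalPos ι x v)⁻¹ * ι p.2).prod = 1 := by
  classical
  -- the weights
  set w : G → ℕ := fun g => if hg : g ∈ A then (χ ⟨g, hg⟩).toAdd.toNat else 0 with hw
  have hwc : ∀ p (hp : p ∈ ca), ((w p.1 : ℕ) : ℤ) = (χ ⟨p.1, hc p hp⟩).toAdd := by
    intro p hp
    simp only [hw, hc p hp, dif_pos]
    exact Int.toNat_of_nonneg (hpos p hp)
  obtain ⟨H1, _, ι1, y, hι1, hy1, hy2⟩ := levin_nonneg (ca.map fun p => (w p.1, p.2)) (by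
      obtain ⟨p, hp, hp0⟩ := hpos'
      refine ⟨(w p.1, p.2), List.mem_map.2 ⟨p, hp, rfl⟩, ?_⟩
      have := hwc p hp
      dsimp only
      omega) (by
      rw [List.map_map]
      exact ha)
  -- the central product
  have hCA : (ca.map Prod.fst).prod ∈ A := by
    apply Subgroup.list_prod_mem
    intro g hg
    obtain ⟨p, hp, rfl⟩ := List.mem_map.1 hg
    exact hc p hp
  obtain ⟨C, hC⟩ : ∃ C : A, C = ⟨(ca.map Prod.fst).prod, hCA⟩ := ⟨_, rfl⟩
  have hCcomm : ∀ a : A, a * C = C * a := by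
    intro a
    ext
    rw [hC]
    exact hcen a a.2
  let K : Subgroup A := Subgroup.zpowers C
  have hK : K.Normal := by
    constructor
    intro n hn g
    have h1 : g * n * g⁻¹ = n := by
      obtain ⟨k, rfl⟩ := Subgroup.mem_zpowers_iff.1 hn
      have h2 : Commute g C := hCcomm g
      have h3 : g * C ^ k = C ^ k * g := h2.zpow_right k
      rw [h3, mul_assoc, mul_inv_cancel, mul_one]
    rw [h1]
    exact hn
  -- χ of the product of a sublist
  have hχC : 0 < (χ C).toAdd := by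
    have key : ∀ l : List (G × G), ∀ (hl : ∀ p ∈ l, p ∈ ca) (h : (l.map Prod.fst).prod ∈ A),
        0 ≤ (χ ⟨(l.map Prod.fst).prod, h⟩).toAdd ∧
        ∀ p (hp : p ∈ l), (χ ⟨p.1, hc p (hl p hp)⟩).toAdd ≤
          (χ ⟨(l.map Prod.fst).prod, h⟩).toAdd := by
      intro l
      induction l with
      | nil =>
        intro hl h
        have : (⟨((([] : List (G × G)).map Prod.fst).prod), h⟩ : A) = 1 := by
          ext
          simp
        rw [this]
        simp
      | cons q l ih =>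
        intro hl h
        have hq : q.1 ∈ A := hc q (hl q (by simp))
        have hl' : (l.map Prod.fst).prod ∈ A := by
          apply Subgroup.list_prod_mem
          intro g hg
          obtain ⟨p, hp, rfl⟩ := List.mem_map.1 hg
          exact hc p (hl p (by simp [hp]))
        have e : (⟨((q :: l).map Prod.fst).prod, h⟩ : A) = ⟨q.1, hq⟩ * ⟨_, hl'⟩ := by
          ext
          simp
        rw [e, map_mul, toAdd_mul]
        obtain ⟨i1, i2⟩ := ih (fun p hp => hl p (by simp [hp])) hl'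
        have hq0 := hpos q (hl q (by simp))
        refine ⟨by omega, ?_⟩
        intro p hp
        rcases List.mem_cons.1 hp with rfl | hp'
        · omega
        · have := i2 p hp'
          omega
    obtain ⟨p, hp, hp0⟩ := hpos'
    have := (key ca (fun p hp => hp) hCA).2 p hp
    rw [hC]
    omega
  -- the group before the HNN extension
  let ι0 : G →* H1 × (A ⧸ K) := ι1.prod 1
  have hι0 : Injective ι0 := by
    intro g h hgh
    exact hι1 (congrArg Prod.fst hgh)
  let β : A →* H1 × (A ⧸ K) := ((zpowersHom H1 y).comp χ).prod (QuotientGroup.mk' K)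
  have hβ : Injective β := by
    rw [injective_iff_map_eq_one]
    intro a hβa
    have h1 : y ^ (χ a).toAdd = 1 := by
      have := congrArg Prod.fst hβa
      simpa [β, zpowersHom_apply] using this
    have h2 : (a : A ⧸ K) = 1 := by
      have := congrArg Prod.snd hβa
      simpa [β] using this
    have h3 : (χ a).toAdd = 0 := by
      by_contra hne
      exact hy2 (isOfFinOrder_iff_zpow_eq_one.2 ⟨_, hne, h1⟩)
    have h4 : a ∈ K := (QuotientGroup.eq_one_iff a).1 h2
    obtain ⟨k, rfl⟩ := Subgroup.mem_zpowers_iff.1 h4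
    rw [map_zpow, toAdd_zpow, smul_eq_mul] at h3
    rcases mul_eq_zero.1 h3 with h5 | h5
    · rw [h5, zpow_zero]
    · omega
  -- the HNN extension
  let φ : (A.map ι0) ≃* β.range :=
    (A.equivMapOfInjective ι0 hι0).symm.trans (MonoidHom.ofInjective hβ)
  have ht : ∀ a : A, (HNNExtension.t : HNNExtension _ _ _ φ) * HNNExtension.of (ι0 (a : G)) *
      (HNNExtension.t)⁻¹ = HNNExtension.of (β a) := by
    intro a
    have h1 := HNNExtension.equiv_eq_conj (φ := φ) (A.equivMapOfInjective ι0 hι0 a)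
    have h2 : (φ (A.equivMapOfInjective ι0 hι0 a) : H1 × (A ⧸ K)) = β a := by
      simp only [φ, MulEquiv.trans_apply, MulEquiv.symm_apply_apply]
      rfl
    rw [h2] at h1
    rw [h1]
    simp
  let ι2 : G →* HNNExtension _ _ _ φ := HNNExtension.of.comp ι0
  have hι2 : Injective ι2 := (HNNExtension.of_injective (φ := φ)).comp hι0
  -- solve `v(x) = t`
  obtain ⟨v0, bv, hv0⟩ : ∃ v0 bv, v = v0 ++ [bv] := by
    rcases List.eq_nil_or_concat v with h1 | ⟨L0, bN, h1⟩
    · exact absurd h1 hv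
    · exact ⟨L0, bN, by rw [h1, List.concat_eq_append]⟩
  obtain ⟨H3, _, ι3, x, hι3, hx, -⟩ := levin
    ((v0.map ι2) ++ [ι2 bv * (HNNExtension.t : HNNExtension _ _ _ φ)⁻¹]) (by simp)
  have hvx : evalPos (ι3.comp ι2) x v = ι3 HNNExtension.t := by
    have h1 : evalPos (ι3.comp ι2) x v * (ι3 HNNExtension.t)⁻¹ = 1 := by
      rw [← hx, evalPos, hv0]
      simp [mul_assoc, Function.comp_def]
    exact mul_inv_eq_one.1 h1
  refine ⟨H3, inferInstance, ι3.comp ι2, x, hι3.comp hι2, ?_⟩
  rw [hvx]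
  -- the word
  have hfin : (ca.map fun p => ι3 HNNExtension.t * (ι3.comp ι2) p.1 * (ι3 HNNExtension.t)⁻¹ *
      (ι3.comp ι2) p.2) = ca.map fun p =>
        ι3 (HNNExtension.of ((y ^ (w p.1) * ι1 p.2,
          if hp : p.1 ∈ A then ((⟨p.1, hp⟩ : A) : A ⧸ K) else 1))) := by
    apply List.map_congr_left
    intro p hp
    have h1 := ht ⟨p.1, hc p hp⟩
    have h2 : β ⟨p.1, hc p hp⟩ = (y ^ (w p.1), ((⟨p.1, hc p hp⟩ : A) : A ⧸ K)) := by
      ext1
      · simp only [β, MonoidHom.prod_apply, MonoidHom.comp_apply, zpowersHom_apply]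
        rw [← hwc p hp, zpow_natCast]
      · rfl
    rw [h2] at h1
    have h3 : (ι3 HNNExtension.t * (ι3.comp ι2) p.1 * (ι3 HNNExtension.t)⁻¹ *
      (ι3.comp ι2) p.2) = ι3 ((HNNExtension.t * HNNExtension.of (ι0 p.1) *
        (HNNExtension.t)⁻¹) * HNNExtension.of (ι0 p.2)) := by
      simp [ι2]
    rw [h3]
    have h4 : (HNNExtension.t * HNNExtension.of (ι0 p.1) *
        (HNNExtension.t)⁻¹ : HNNExtension _ _ _ φ) =
        HNNExtension.of ((y ^ (w p.1), ((⟨p.1, hc p hp⟩ : A) : A ⧸ K))) := h1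
    rw [h4, ← map_mul]
    congr 2
    rw [dif_pos (hc p hp)]
    ext1
    · rfl
    · simp [ι0]
  rw [hfin]
  have hprod : ∀ l : List (G × G), (l.map fun p =>
        ι3 (HNNExtension.of ((y ^ (w p.1) * ι1 p.2,
          if hp : p.1 ∈ A then ((⟨p.1, hp⟩ : A) : A ⧸ K) else 1)))).prod =
      ι3 ((HNNExtension.of (((l.map fun p => y ^ (w p.1) * ι1 p.2).prod,
        (l.map fun p => if hp : p.1 ∈ A then ((⟨p.1, hp⟩ : A) : A ⧸ K) else 1).prod)) :
          HNNExtension _ _ _ φ)) := by
    intro l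
    induction l with
    | nil =>
      simp only [List.map_nil, List.prod_nil]
      rw [← Prod.one_eq_mk, map_one, map_one]
    | cons p l ih =>
      rw [List.map_cons, List.prod_cons, ih, ← map_mul, ← map_mul]
      rfl
  rw [hprod]
  have e1 : (ca.map fun p => y ^ (w p.1) * ι1 p.2).prod = 1 := by
    rw [← hy1, List.map_map]
    rfl
  have e2 : ∀ l : List (G × G), (∀ p ∈ l, p ∈ ca) → ∀ h : (l.map Prod.fst).prod ∈ A,
      (l.map fun p => if hp : p.1 ∈ A then ((⟨p.1, hp⟩ : A) : A ⧸ K) else 1).prod =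
        ((⟨(l.map Prod.fst).prod, h⟩ : A) : A ⧸ K) := by
    intro l
    induction l with
    | nil =>
      intro _ h
      rfl
    | cons q l ih =>
      intro hl h
      have hq : q.1 ∈ A := hc q (hl q (by simp))
      have hl' : (l.map Prod.fst).prod ∈ A := by
        apply Subgroup.list_prod_mem
        intro g hg
        obtain ⟨p, hp, rfl⟩ := List.mem_map.1 hg
        exact hc p (hl p (by simp [hp]))
      rw [List.map_cons, List.prod_cons, ih (fun p hp => hl p (by simp [hp])) hl', dif_pos hq]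
      rfl
  rw [e1, e2 ca (fun p hp => hp) hCA]
  have e3 : ((⟨(ca.map Prod.fst).prod, hCA⟩ : A) : A ⧸ K) = 1 := by
    rw [← hC]
    exact (QuotientGroup.eq_one_iff C).2 (Subgroup.mem_zpowers C)
  rw [e3, ← Prod.one_eq_mk, map_one, map_one]

end Pool.Agent.Work.MP_d45015_al
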